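import Pool.Agent.Y160.SH.Stmts
import Pool.Agent.TH115.TC.Compl
import Pool.Agent.TH115.TC.LocC

/-!
# Local triviality over `k(t)` implies local triviality over `k'(t)`
-/

set_option autoImplicit false
set_option linter.all false

open Polynomial IsDedekindDomain
open scoped Classical

namespace Pool.Agent.Y141.SH

open Pool.Agent.TH115.GD (incl rs ak Sep Comp CompInf IsTower exists_restrict exists_aut
  exists_kappa exists_compl_map)
open Pool.Agent.Y160.SQ (Jac jm IsCoc LocTriv jm_jm)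
open Pool.Agent.Y160.SH

section polyint

variable {k k' : Type} [Field k] [Field k'] [Algebra k k'] [Algebra.IsIntegral k k']

theorem poly_integral : (mapRingHom (algebraMap k k')).IsIntegral := by
  intro p
  induction p using Polynomial.induction_on' with
  | add p q hp hq => exact RingHom.IsIntegralElem.add _ hp hq
  | monomial n c =>
    rw [← C_mul_X_pow_eq_monomial]
    refine RingHom.IsIntegralElem.mul _ ?_ ?_
    · have h1 : (algebraMap k k').IsIntegralElem c := Algebra.IsIntegral.isIntegral (R := k) c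
      have h3 := h1.map (C : k' →+* k'[X])
      have h4 : (C : k' →+* k'[X]).comp (algebraMap k k') =
          (mapRingHom (algebraMap k k')).comp (C : k →+* k[X]) := by
        ext x; simp
      rw [h4] at h3
      exact RingHom.IsIntegralElem.of_comp h3
    · have h1 : (X ^ n : k'[X]) = mapRingHom (algebraMap k k') (X ^ n) := by simp
      rw [h1]
      exact RingHom.isIntegralElem_map _

end polyint

section transfer

variable {ℓ : ℕ} {K F Ω L Ω' E Ω'' : Type} [Field K] [Field F] [Field Ω] [Field L] [Field Ω']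
  [Field E] [Field Ω''] [Algebra K F] [Algebra F Ω] [Algebra K Ω] [IsScalarTower K F Ω]
  [IsGalois F Ω]
  [Algebra K L] [Algebra F L] [IsScalarTower K F L]
  [Algebra L Ω'] [Algebra K Ω'] [Algebra F Ω'] [IsScalarTower K L Ω'] [IsScalarTower F L Ω']
  [IsScalarTower K F Ω']
  [Algebra K E] [Algebra E Ω''] [Algebra K Ω''] [Algebra F Ω''] [Algebra F E]
  [IsScalarTower K E Ω''] [IsScalarTower K F Ω''] [IsScalarTower F E Ω'']
  {f : K[X]}

/-- A locally trivial cocycle is locally trivial over extensions of the completion, for any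
embedding. -/
theorem transfer0 {c : (Ω ≃ₐ[F] Ω) → Jac ℓ f Ω} (hc : IsCoc ℓ f c)
    (hloc : LocTriv ℓ f L Ω' c) (κ : Ω' →ₐ[F] Ω'')
    (hκ : ∀ τ : Ω'' ≃ₐ[E] Ω'', ∃ τ' : Ω' ≃ₐ[L] Ω', ∀ x, τ (κ x) = κ (τ' x))
    (e : Ω →ₐ[F] Ω'') :
    ∃ P : Jac ℓ f Ω'', ∀ (τ : Ω'' ≃ₐ[E] Ω'') (σ : Ω ≃ₐ[F] Ω), (∀ x, τ (e x) = e (σ x)) →
        jm ℓ f (e.restrictScalars K) (c σ) = jm ℓ f (rs K τ) P - P := by
  obtain ⟨ι, P0, hP⟩ := hloc
  set ι' : Ω →ₐ[K] Ω' := ι.restrictScalars K with hι'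
  set κ' : Ω' →ₐ[K] Ω'' := κ.restrictScalars K with hκ'
  obtain ⟨ρ, hρ⟩ := exists_aut (κ.comp ι) e
  refine ⟨jm ℓ f κ' P0 + jm ℓ f (κ'.comp ι') (c ρ), fun τ σ h => ?_⟩
  obtain ⟨τ', hτ'⟩ := hκ τ
  -- `res τ' = ρ σ ρ⁻¹`
  have hconj : ∀ x, τ' (ι x) = ι ((ρ * σ * ρ⁻¹) x) := by
    intro x
    apply κ.injective
    show κ (τ' (ι x)) = κ (ι ((ρ * σ * ρ⁻¹) x))
    rw [← hτ']
    have e1 : κ (ι x) = e (ρ⁻¹ x) := by
      rw [hρ, ← AlgEquiv.mul_apply, mul_inv_cancel]; rfl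
    rw [e1, h, hρ]
    rfl
  have h1 := hP τ' _ hconj
  have h2 : c (ρ * σ * ρ⁻¹ * ρ) = c (ρ * σ * ρ⁻¹) + jm ℓ f (rs K (ρ * σ * ρ⁻¹)) (c ρ) :=
    hc.mul _ _
  have h3 : ρ * σ * ρ⁻¹ * ρ = ρ * σ := by group
  rw [h3, hc.mul] at h2
  have h4 : jm ℓ f (rs K ρ) (c σ) =
      c (ρ * σ * ρ⁻¹) + jm ℓ f (rs K (ρ * σ * ρ⁻¹)) (c ρ) - c ρ := by
    rw [← h2]; abel
  have ec : jm ℓ f (e.restrictScalars K) (c σ) = jm ℓ f (κ'.comp ι') (jm ℓ f (rs K ρ) (c σ)) := by
    have e6 : (κ'.comp ι').comp (rs K ρ) = e.restrictScalars K := AlgHom.ext fun x => (hρ x).symm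
    rw [jm_jm, e6]
  have e5 : jm ℓ f (κ'.comp ι') (c (ρ * σ * ρ⁻¹)) =
      jm ℓ f (rs K τ) (jm ℓ f κ' P0) - jm ℓ f κ' P0 := by
    have e6 : (κ').comp (rs K τ') = (rs K τ).comp κ' := AlgHom.ext fun x => (hτ' x).symm
    rw [← jm_jm, h1, map_sub, jm_jm, jm_jm, e6]
  have e7 : jm ℓ f (κ'.comp ι') (jm ℓ f (rs K (ρ * σ * ρ⁻¹)) (c ρ)) =
      jm ℓ f (rs K τ) (jm ℓ f (κ'.comp ι') (c ρ)) := by
    have e8 : (κ'.comp ι').comp (rs K (ρ * σ * ρ⁻¹)) = (rs K τ).comp (κ'.comp ι') := by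
      refine AlgHom.ext fun x => ?_
      show κ (ι ((ρ * σ * ρ⁻¹) x)) = τ (κ (ι x))
      rw [hτ', hconj]
    rw [jm_jm, jm_jm, e8]
  rw [ec, h4, map_sub, map_add, e5, e7, map_add]
  abel

end transfer

/-- The map of the completions of `k(t)` and `k'(t)`. -/
theorem exists_map {k k' K F : Type} [Field k] [Field k'] [Algebra k k'] [Field K]
    [Algebra k[X] K] [IsFractionRing k[X] K] [Field F] [Algebra k'[X] F] [IsFractionRing k'[X] F]
    [Algebra K F] (hT : IsTower k k' K F) (w : HeightOneSpectrum k'[X]) :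
    ∃ (v : HeightOneSpectrum k[X]) (j : Comp k[X] K v →+* Comp k'[X] F w),
      ∀ x : K, j (algebraMap K (Comp k[X] K v) x) = algebraMap K (Comp k'[X] F w) x := by
  haveI := hT.sep
  haveI : Algebra.IsIntegral k k' := inferInstance
  letI : Algebra k[X] k'[X] := (mapRingHom (algebraMap k k')).toAlgebra
  haveI : Algebra.IsIntegral k[X] k'[X] := ⟨poly_integral⟩
  letI : Algebra k[X] F := ((algebraMap K F).comp (algebraMap k[X] K)).toAlgebra
  haveI : IsScalarTower k[X] K F := IsScalarTower.of_algebraMap_eq fun x => rfl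
  haveI : IsScalarTower k[X] k'[X] F := IsScalarTower.of_algebraMap_eq fun x => hT.map x
  haveI : FaithfulSMul k[X] k'[X] := (faithfulSMul_iff_algebraMap_injective _ _).2
    (Polynomial.map_injective _ (algebraMap k k').injective)
  haveI : Module.IsTorsionFree k[X] k'[X] := inferInstance
  let v : HeightOneSpectrum k[X] := w.under k[X]
  haveI hlo : w.asIdeal.LiesOver v.asIdeal := ⟨rfl⟩
  have hval : ∀ x : K, v.valuation K x ^ v.asIdeal.ramificationIdx' w.asIdeal =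
      w.valuation F (algebraMap K F x) := fun x =>
    HeightOneSpectrum.valuation_liesOver (A := k[X]) F v w x
  have he : v.asIdeal.ramificationIdx' w.asIdeal ≠ 0 :=
    Ideal.IsDedekindDomain.ramificationIdx'_ne_zero_of_liesOver w.asIdeal v.ne_bot
  obtain ⟨j, hj1, -, -⟩ := exists_compl_map v w (algebraMap K F)
    (fun x hx => by rw [← hval]; exact pow_le_one₀ zero_le hx)
    (fun x hx => by rw [← hval]; exact pow_lt_one₀ zero_le hx he)
  exact ⟨v, j, fun x => hj1 x⟩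

/-- Local triviality over `k(t)` implies local triviality over `k'(t)`. -/
theorem stShaLoc : StShaLoc := by
  intro ℓ k k' K F _ _ _ _ _ _ _ _ _ _ hT f c hc hloc j w
  obtain ⟨v, j0, hj0⟩ := exists_map hT w
  obtain ⟨κ, -, hκ⟩ := exists_kappa (F := K) (L := Comp k[X] K v) (Ω' := Sep (Comp k[X] K v))
    (E := Comp k'[X] F w) (Ω'' := Sep (Comp k'[X] F w)) j0 hj0
  haveI : Algebra.IsSeparable F (Sep F) := IsSepClosure.separable
  let i : Sep F →ₐ[F] Sep (Comp k'[X] F w) := IsSepClosed.lift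
  let e : Sep K →ₐ[K] Sep (Comp k'[X] F w) := (i.restrictScalars K).comp (j : Sep K →ₐ[K] Sep F)
  obtain ⟨P, hP⟩ := transfer0 (F := K) (Ω := Sep K) (L := Comp k[X] K v)
    (Ω' := Sep (Comp k[X] K v)) (E := Comp k'[X] F w) (Ω'' := Sep (Comp k'[X] F w)) hc (hloc v) κ hκ e
  refine ⟨i, P, fun τ σ h => ?_⟩
  have h1 := hP τ ((j.trans (σ.restrictScalars K)).trans j.symm) (fun x => by
    show τ (i (j x)) = i (j (j.symm (σ (j x))))
    rw [h, AlgEquiv.apply_symm_apply])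
  rw [← h1, jm_jm]
  rfl

end Pool.Agent.Y141.SH
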